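import Mathlib

/-!
# Classes of finite modules over a group which are closed under quotients and extensions
-/

namespace Pool.Agent.X307.MU

/-- A finite `𝔽_p`-vector space with a linear action of `G`. -/
structure GMod (p : ℕ) (G : Type) [Group G] where
  M : Type
  [grp : AddCommGroup M]
  [mod : Module (ZMod p) M]
  [fin : Finite M]
  ρ : Representation (ZMod p) G M

attribute [instance] GMod.grp GMod.mod GMod.fin

section

variable {p : ℕ} {G : Type} [Group G]

/-- An open subgroup acts trivially. -/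
def IsSmooth [TopologicalSpace G] (X : GMod p G) : Prop :=
  ∃ U : Subgroup G, IsOpen (U : Set G) ∧ ∀ u ∈ U, ∀ x : X.M, X.ρ u x = x

/-- `Y` is a quotient of `X`. -/
def IsQuotient (X Y : GMod p G) : Prop :=
  ∃ f : X.M →ₗ[ZMod p] Y.M, Function.Surjective f ∧ ∀ g x, f (X.ρ g x) = Y.ρ g (f x)

/-- `Y` is an extension of `Z` by `X`. -/
def IsExtension (X Y Z : GMod p G) : Prop :=
  ∃ (i : X.M →ₗ[ZMod p] Y.M) (q : Y.M →ₗ[ZMod p] Z.M), Function.Injective i ∧
    Function.Surjective q ∧ Function.Exact i q ∧ (∀ g x, i (X.ρ g x) = Y.ρ g (i x)) ∧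
    ∀ g y, q (Y.ρ g y) = Z.ρ g (q y)

/-- The trivial module `𝔽_p`. -/
def trivialMod (p : ℕ) [NeZero p] (G : Type) [Group G] : GMod p G where
  M := ZMod p
  ρ := Representation.trivial (ZMod p) G (ZMod p)

/-- The permutation module `𝔽_p[G/H]`. -/
def permMod (p : ℕ) [NeZero p] {G : Type} [Group G] (H : Subgroup G) [H.FiniteIndex] :
    GMod p G where
  M := (G ⧸ H) → ZMod p
  ρ :=
    { toFun := fun g => LinearMap.funLeft (ZMod p) (ZMod p) (fun x : G ⧸ H => g⁻¹ • x)
      map_one' := by
        ext f x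
        simp [LinearMap.funLeft_apply]
      map_mul' := fun g h => by
        ext f x
        simp [LinearMap.funLeft_apply, mul_smul] }

end

end Pool.Agent.X307.MU
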