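import Pool.Agent.X307.MU.Defs

/-!
# Dévissage: all modules are obtained from permutation modules by quotients and extensions
-/

namespace Pool.Agent.X307.MU

variable {p : ℕ} [Fact p.Prime] {G : Type} [Group G] [TopologicalSpace G]

/-- `X` has a nonzero vector fixed by `U`. -/
def HasFixed (X : GMod p G) (U : Subgroup G) : Prop :=
  ∃ v : X.M, v ≠ 0 ∧ ∀ u ∈ U, X.ρ u v = v

/-- `X ≠ 0` has no stable subspaces except `0` and `X`. -/
def IsIrreducible (X : GMod p G) : Prop :=
  Nontrivial X.M ∧ ∀ N : Submodule (ZMod p) X.M, (∀ g, ∀ x ∈ N, X.ρ g x ∈ N) → N = ⊥ ∨ N = ⊤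

/-- An irreducible module with a nonzero vector fixed by `H` is a quotient of `𝔽_p[G/H]`. -/
theorem isQuotient_perm {X : GMod p G} (hX : IsIrreducible X) (H : Subgroup G) [H.FiniteIndex]
    (h : HasFixed X H) : IsQuotient (permMod p H) X := by
  classical
  obtain ⟨v, hv0, hv⟩ := h
  haveI : Fintype (G ⧸ H) := Fintype.ofFinite _
  let orb : G ⧸ H → X.M := Quotient.lift (fun g : G => X.ρ g v) (by
    intro a b hab
    have hab' : a⁻¹ * b ∈ H := QuotientGroup.leftRel_apply.mp hab
    have h1 : X.ρ (a⁻¹ * b) v = v := hv _ hab'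
    have h2 : b = a * (a⁻¹ * b) := by group
    change X.ρ a v = X.ρ b v
    rw [h2, map_mul, Module.End.mul_apply, h1])
  have horb : ∀ (g : G) (x : G ⧸ H), orb (g • x) = X.ρ g (orb x) := by
    intro g x
    induction x using QuotientGroup.induction_on with
    | H a =>
      change X.ρ (g * a) v = X.ρ g (X.ρ a v)
      rw [map_mul, Module.End.mul_apply]
  let f : ((G ⧸ H) → ZMod p) →ₗ[ZMod p] X.M :=
    { toFun := fun φ => ∑ x, φ x • orb x
      map_add' := by
        intro a b
        simp [add_smul, Finset.sum_add_distrib]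
      map_smul' := by
        intro c a
        simp [mul_smul, Finset.smul_sum] }
  have hf : ∀ (g : G) (φ : (G ⧸ H) → ZMod p), f ((permMod p H).ρ g φ) = X.ρ g (f φ) := by
    intro g φ
    change ∑ x, φ (g⁻¹ • x) • orb x = X.ρ g (∑ x, φ x • orb x)
    rw [map_sum]
    refine Finset.sum_bij' (fun x _ => g⁻¹ • x) (fun x _ => g • x) (by simp) (by simp) (by simp)
      (by simp) ?_
    intro x _
    rw [map_smul, ← horb, smul_inv_smul]
  suffices hsurj : Function.Surjective f from ⟨f, hsurj, hf⟩
  have hrange : LinearMap.range f = ⊥ ∨ LinearMap.range f = ⊤ := by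
    refine hX.2 _ ?_
    rintro g _ ⟨φ, rfl⟩
    exact ⟨(permMod p H).ρ g φ, hf g φ⟩
  rcases hrange with h0 | h1
  · exfalso
    have h2 : f (Pi.single (QuotientGroup.mk (1 : G)) 1) = v := by
      change ∑ x, (Pi.single (QuotientGroup.mk (1 : G)) (1 : ZMod p) : (G ⧸ H) → ZMod p) x •
        orb x = v
      rw [Finset.sum_eq_single (QuotientGroup.mk (1 : G))]
      · rw [Pi.single_eq_same, one_smul]
        change X.ρ 1 v = v
        rw [map_one, Module.End.one_apply]
      · intro x _ hx
        rw [Pi.single_eq_of_ne hx, zero_smul]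
      · simp
    have h3 : v ∈ LinearMap.range f := ⟨_, h2⟩
    rw [h0, Submodule.mem_bot] at h3
    exact hv0 h3
  · exact LinearMap.range_eq_top.mp h1

/-- The subrepresentation. -/
def GMod.sub (X : GMod p G) (N : Submodule (ZMod p) X.M) (h : ∀ g, ∀ x ∈ N, X.ρ g x ∈ N) :
    GMod p G where
  M := N
  ρ :=
    { toFun := fun g => (X.ρ g).restrict (h g)
      map_one' := by
        ext x
        simp [LinearMap.restrict_apply]
      map_mul' := fun a b => by
        ext x
        simp [LinearMap.restrict_apply] }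

/-- The quotient representation. -/
def GMod.quot (X : GMod p G) (N : Submodule (ZMod p) X.M) (h : ∀ g, ∀ x ∈ N, X.ρ g x ∈ N) :
    GMod p G where
  M := X.M ⧸ N
  fin := Quotient.finite _
  ρ :=
    { toFun := fun g => N.mapQ N (X.ρ g) (fun x hx => h g x hx)
      map_one' := by
        ext x
        simp
      map_mul' := fun a b => by
        ext x
        simp }

theorem isExtension_sub (X : GMod p G) (N : Submodule (ZMod p) X.M)
    (h : ∀ g, ∀ x ∈ N, X.ρ g x ∈ N) : IsExtension (X.sub N h) X (X.quot N h) := by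
  refine ⟨N.subtype, N.mkQ, N.injective_subtype, N.mkQ_surjective, ?_, fun g x => rfl,
    fun g y => rfl⟩
  exact LinearMap.exact_subtype_mkQ N

theorem IsSmooth.sub {X : GMod p G} (hX : IsSmooth X) (N : Submodule (ZMod p) X.M)
    (h : ∀ g, ∀ x ∈ N, X.ρ g x ∈ N) : IsSmooth (X.sub N h) := by
  obtain ⟨U, hU, hU'⟩ := hX
  exact ⟨U, hU, fun u hu x => Subtype.ext (hU' u hu x.1)⟩

theorem IsSmooth.quot {X : GMod p G} (hX : IsSmooth X) (N : Submodule (ZMod p) X.M)
    (h : ∀ g, ∀ x ∈ N, X.ρ g x ∈ N) : IsSmooth (X.quot N h) := by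
  obtain ⟨U, hU, hU'⟩ := hX
  refine ⟨U, hU, fun u hu x => ?_⟩
  obtain ⟨y, rfl⟩ := N.mkQ_surjective x
  change N.mkQ (X.ρ u y) = N.mkQ y
  rw [hU' u hu y]

/-- Let `𝒱` be closed under quotients and extensions of smooth modules. If `𝒱` contains `𝔽_p[G/U]`
for all `U` in `𝒦` and each smooth irreducible module has a nonzero vector fixed by some `U` in
`𝒦`, then `𝒱` contains all smooth modules. -/
theorem devissage (𝒱 : GMod p G → Prop)
    (hq : ∀ X Y, IsSmooth X → IsSmooth Y → IsQuotient X Y → 𝒱 X → 𝒱 Y)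
    (he : ∀ X Y Z, IsSmooth X → IsSmooth Y → IsSmooth Z → IsExtension X Y Z → 𝒱 X → 𝒱 Z → 𝒱 Y)
    (𝒦 : Subgroup G → Prop)
    (hfin : ∀ U, 𝒦 U → ∃ _ : U.FiniteIndex, IsSmooth (permMod p U) ∧ 𝒱 (permMod p U))
    (hrich : ∀ X : GMod p G, IsSmooth X → IsIrreducible X → ∃ U, 𝒦 U ∧ HasFixed X U)
    (h0 : ∀ X : GMod p G, Subsingleton X.M → 𝒱 X) (X : GMod p G) (hX : IsSmooth X) : 𝒱 X := by
  obtain ⟨n, hn⟩ : ∃ n, Nat.card X.M = n := ⟨_, rfl⟩
  induction n using Nat.strong_induction_on generalizing X with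
  | _ n ih =>
    rcases subsingleton_or_nontrivial X.M with hs | hnt
    · exact h0 X hs
    by_cases hirr : IsIrreducible X
    · obtain ⟨U, hU, hfix⟩ := hrich X hX hirr
      obtain ⟨_, hsm, hV⟩ := hfin U hU
      exact hq _ X hsm hX (isQuotient_perm hirr U hfix) hV
    · simp only [IsIrreducible, hnt, true_and, not_forall, not_or] at hirr
      obtain ⟨N, hN, hbot, htop⟩ := hirr
      have hcard1 : Nat.card N < Nat.card X.M := by
        have h1 : Nat.card ((⊤ : Submodule (ZMod p) X.M)) = Nat.card X.M :=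
          Nat.card_congr Submodule.topEquiv.toEquiv
        rw [← h1]
        have hlt : N < ⊤ := lt_top_iff_ne_top.mpr htop
        exact Set.Finite.card_lt_card (Set.toFinite _) hlt
      have hcard2 : Nat.card (X.M ⧸ N) < Nat.card X.M := by
        have h1 : Nat.card X.M = Nat.card N * Nat.card (X.M ⧸ N) :=
          Submodule.card_eq_card_quotient_mul_card N |>.trans (by ring)
        have h2 : 1 < Nat.card N := by
          have : Nontrivial N := Submodule.nontrivial_iff_ne_bot.mpr hbot
          exact Finite.one_lt_card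
        have h3 : 0 < Nat.card (X.M ⧸ N) := by
          have : Finite (X.M ⧸ N) := Quotient.finite _
          exact Nat.card_pos
        rw [h1]
        nlinarith
      exact he _ X _ (hX.sub N hN) hX (hX.quot N hN) (isExtension_sub X N hN)
        (ih _ (hn ▸ hcard1) (X.sub N hN) (hX.sub N hN) rfl)
        (ih _ (hn ▸ hcard2) (X.quot N hN) (hX.quot N hN) rfl)

end Pool.Agent.X307.MU
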