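import Pool.Agent.X307.MU.Syl

/-!
# Classes of finite Galois modules over number fields
-/

namespace Pool.Agent.X307.MU

/-- The fields between `k` and a fixed algebraic closure of `k`. -/
abbrev Fld (k : Type) [Field k] := IntermediateField k (AlgebraicClosure k)

section

variable {k : Type} [Field k]

/-- The Galois group of the algebraic closure over `K`. -/
noncomputable abbrev Gal (K : Fld k) : Type := K.fixingSubgroup

/-- The Galois group of the algebraic closure over the compositum `K L`, as a subgroup of `Gal K`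
(for `K ≤ L` it is the Galois group over `L`). -/
noncomputable abbrev galSub (K L : Fld k) : Subgroup (Gal K) := L.fixingSubgroup.subgroupOf K.fixingSubgroup

/-- Properties of a class `V` of finite modules over the groups `Gal K`, `K` finite over `k`: closed
under quotients and extensions, and `𝔽_p[Gal K/Gal L]` is in the class over `K` if and only if `𝔽_p`
is in the class over `L` (`K ⊂ L`; lemma of Shapiro). -/
structure IsGaloisClass (p : ℕ) [Fact p.Prime] (V : (K : Fld k) → GMod p (Gal K) → Prop) :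
    Prop where
  zero : ∀ (K : Fld k), FiniteDimensional k K → ∀ X : GMod p (Gal K), Subsingleton X.M → V K X
  quotient : ∀ (K : Fld k), FiniteDimensional k K → ∀ X Y : GMod p (Gal K), IsSmooth X →
    IsSmooth Y → IsQuotient X Y → V K X → V K Y
  extension : ∀ (K : Fld k), FiniteDimensional k K → ∀ X Y Z : GMod p (Gal K), IsSmooth X →
    IsSmooth Y → IsSmooth Z → IsExtension X Y Z → V K X → V K Z → V K Y
  shapiro : ∀ (K L : Fld k), FiniteDimensional k L → K ≤ L → ∀ _ : (galSub K L).FiniteIndex,
    (V K (permMod p (galSub K L)) ↔ V L (trivialMod p (Gal L)))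

/-- Each irreducible finite `𝔽_p`-representation of `Gal k` has a nonzero vector which is fixed by
`Gal K` for some `K` in `𝒦`. -/
def IsRich (p : ℕ) [Fact p.Prime] (𝒦 : Set (Fld k)) : Prop :=
  ∀ X : GMod p (Gal (⊥ : Fld k)), IsSmooth X → IsIrreducible X →
    ∃ K ∈ 𝒦, HasFixed X (galSub ⊥ K)

theorem permMod_smooth {p : ℕ} [Fact p.Prime] {G : Type} [Group G] [TopologicalSpace G]
    [IsTopologicalGroup G] (U : Subgroup G) [U.FiniteIndex] (hU : IsOpen (U : Set G)) :
    IsSmooth (permMod p U) := by
  refine ⟨U.normalCore, ?_, ?_⟩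
  · exact Subgroup.isOpen_of_isClosed_of_finiteIndex _
      (U.normalCore_isClosed (Subgroup.isClosed_of_isOpen U hU))
  · intro u hu φ
    change (fun x : G ⧸ U => φ (u⁻¹ • x)) = φ
    funext x
    congr 1
    induction x using QuotientGroup.induction_on with
    | H a =>
      change ((u⁻¹ * a : G) : G ⧸ U) = a
      rw [QuotientGroup.eq]
      have h1 : a⁻¹ * u * (a⁻¹)⁻¹ ∈ U.normalCore :=
        (inferInstance : U.normalCore.Normal).conj_mem u hu a⁻¹
      have h2 := U.normalCore_le h1
      simpa [mul_assoc] using h2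

variable [CharZero k]

theorem isOpen_fixing (L : Fld k) [FiniteDimensional k L] :
    IsOpen (L.fixingSubgroup : Set (AlgebraicClosure k ≃ₐ[k] AlgebraicClosure k)) :=
  IntermediateField.fixingSubgroup_isOpen L

theorem isOpen_galSub (K L : Fld k) [FiniteDimensional k L] : IsOpen (galSub K L : Set (Gal K)) :=
  (isOpen_fixing L).preimage continuous_subtype_val

theorem finiteIndex_fixing (L : Fld k) [FiniteDimensional k L] : L.fixingSubgroup.FiniteIndex := by
  constructor
  rw [← IntermediateField.finrank_eq_fixingSubgroup_index]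
  exact Module.finrank_pos.ne'

theorem finiteIndex_galSub (K L : Fld k) [FiniteDimensional k L] : (galSub K L).FiniteIndex :=
  have := finiteIndex_fixing L
  inferInstance

/-- An open subgroup of `Gal K` is the group `Gal L` of a finite extension `L` of `K`. -/
theorem exists_field (K : Fld k) [FiniteDimensional k K] (U : Subgroup (Gal K))
    (hU : IsOpen (U : Set (Gal K))) :
    ∃ L : Fld k, FiniteDimensional k L ∧ K ≤ L ∧ galSub K L = U ∧
      L.fixingSubgroup = U.map K.fixingSubgroup.subtype := by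
  let U' : Subgroup (AlgebraicClosure k ≃ₐ[k] AlgebraicClosure k) :=
    U.map K.fixingSubgroup.subtype
  have hU' : IsOpen (U' : Set (AlgebraicClosure k ≃ₐ[k] AlgebraicClosure k)) := by
    exact (isOpen_fixing K).isOpenMap_subtype_val _ hU
  let C : ClosedSubgroup (AlgebraicClosure k ≃ₐ[k] AlgebraicClosure k) :=
    { U' with isClosed' := Subgroup.isClosed_of_isOpen U' hU' }
  let L : Fld k := IntermediateField.fixedField U'
  have hL : L.fixingSubgroup = U' := InfiniteGalois.fixingSubgroup_fixedField C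
  have hfd : FiniteDimensional k L := by
    rw [← InfiniteGalois.isOpen_iff_finite]
    change IsOpen (L.fixingSubgroup : Set (AlgebraicClosure k ≃ₐ[k] AlgebraicClosure k))
    rw [hL]
    exact hU'
  refine ⟨L, hfd, ?_, ?_, hL⟩
  · rw [IntermediateField.le_iff_le]
    rintro _ ⟨u, -, rfl⟩
    exact u.2
  · ext u
    rw [Subgroup.mem_subgroupOf, hL]
    constructor
    · rintro ⟨w, hw, hwu⟩
      have : w = u := Subtype.ext hwu
      exact this ▸ hw
    · exact fun hu => ⟨u, hu, rfl⟩

variable {p : ℕ} [Fact p.Prime] {V : (K : Fld k) → GMod p (Gal K) → Prop}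

/-- If the class contains `𝔽_p` over all fields in a rich class, it contains all finite modules. -/
theorem IsGaloisClass.all (hV : IsGaloisClass p V) (𝒦 : Set (Fld k))
    (hfd : ∀ K ∈ 𝒦, FiniteDimensional k K) (hrich : IsRich p 𝒦)
    (h : ∀ K ∈ 𝒦, V K (trivialMod p (Gal K))) (K : Fld k) (hK : FiniteDimensional k K)
    (X : GMod p (Gal K)) (hX : IsSmooth X) : V K X := by
  -- over `k`
  have h1 : ∀ X : GMod p (Gal (⊥ : Fld k)), IsSmooth X → V ⊥ X := by
    refine devissage (V ⊥) (hV.quotient ⊥ inferInstance) (hV.extension ⊥ inferInstance)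
      (fun U => ∃ K ∈ 𝒦, galSub ⊥ K = U) ?_ ?_ (hV.zero ⊥ inferInstance)
    · rintro _ ⟨K, hK, rfl⟩
      have := hfd K hK
      have hf := finiteIndex_galSub ⊥ K
      exact ⟨hf, permMod_smooth _ (isOpen_galSub ⊥ K),
        (hV.shapiro ⊥ K this bot_le hf).mpr (h K hK)⟩
    · intro X hX hirr
      obtain ⟨K, hK, hfix⟩ := hrich X hX hirr
      exact ⟨_, ⟨K, hK, rfl⟩, hfix⟩
  -- `𝔽_p` over all fields
  have h2 : ∀ L : Fld k, FiniteDimensional k L → V L (trivialMod p (Gal L)) := by
    intro L hL
    have hf := finiteIndex_galSub ⊥ L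
    exact (hV.shapiro ⊥ L hL bot_le hf).mp (h1 _ (permMod_smooth _ (isOpen_galSub ⊥ L)))
  refine devissage (V K) (hV.quotient K hK) (hV.extension K hK)
    (fun U => ∃ L : Fld k, FiniteDimensional k L ∧ K ≤ L ∧ galSub K L = U) ?_ ?_ (hV.zero K hK) X hX
  · rintro _ ⟨L, hL, hKL, rfl⟩
    have hf := finiteIndex_galSub K L
    exact ⟨hf, permMod_smooth _ (isOpen_galSub K L), (hV.shapiro K L hL hKL hf).mpr (h2 L hL)⟩
  · intro X hX hirr
    obtain ⟨U, hU, hUX⟩ := hX
    obtain ⟨L, hL, hKL, hLU, -⟩ := exists_field K U hU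
    refine ⟨U, ⟨L, hL, hKL, hLU⟩, ?_⟩
    have := hirr.1
    obtain ⟨v, hv⟩ := exists_ne (0 : X.M)
    exact ⟨v, hv, fun u hu => hUX u hu v⟩

/-- The fields of degree prime to `p` which contain a given field of degree prime to `p` form a rich
class. -/
theorem isRich_degree (K₀ : Fld k) [FiniteDimensional k K₀] (hK₀ : ¬ p ∣ Module.finrank k K₀) :
    IsRich p {K : Fld k | FiniteDimensional k K ∧ K₀ ≤ K ∧ ¬ p ∣ Module.finrank k K} := by
  intro X hX hirr
  have := hirr.1
  have htop : (⊥ : Fld k).fixingSubgroup = ⊤ := IntermediateField.fixingSubgroup_bot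
  have hcpt : CompactSpace (Gal (⊥ : Fld k)) :=
    isCompact_iff_compactSpace.mp (InfiniteGalois.fixingSubgroup_isClosed (⊥ : Fld k)).isCompact
  have htd : TotallyDisconnectedSpace (AlgebraicClosure k ≃ₐ[k] AlgebraicClosure k) :=
    inferInstance
  have hind : (galSub ⊥ K₀).index = Module.finrank k K₀ := by
    rw [IntermediateField.finrank_eq_fixingSubgroup_index]
    change K₀.fixingSubgroup.relIndex (⊥ : Fld k).fixingSubgroup = _
    rw [htop, Subgroup.relIndex_top_right]
  obtain ⟨U, hU₀, hUo, hUp, hfix⟩ := exists_hasFixed X hX (galSub ⊥ K₀) (isOpen_galSub ⊥ K₀)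
    (hind ▸ hK₀)
  obtain ⟨L, hL, -, hLU, hLU'⟩ := exists_field ⊥ U hUo
  refine ⟨L, ⟨hL, ?_, ?_⟩, hLU ▸ hfix⟩
  · have h1 : L.fixingSubgroup ≤ K₀.fixingSubgroup := by
      rw [hLU']
      rintro _ ⟨u, hu, rfl⟩
      exact hU₀ hu
    rw [← InfiniteGalois.fixedField_fixingSubgroup L, IntermediateField.le_iff_le]
    exact h1
  · have hone : (⊥ : Fld k).fixingSubgroup.index = 1 := by rw [htop, Subgroup.index_top]
    rw [IntermediateField.finrank_eq_fixingSubgroup_index, hLU', Subgroup.index_map_subtype,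
      hone, mul_one]
    exact hUp

end

end Pool.Agent.X307.MU
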