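import Pool.Agent.X307.MU.Dev

/-!
# Vectors fixed by subgroups of index prime to `p`
-/

namespace Pool.Agent.X307.MU

variable {p : ℕ} [Fact p.Prime] {G : Type} [Group G] [TopologicalSpace G]

/-- A nonzero smooth module over a profinite group `G` has a nonzero vector which is fixed by an open
subgroup of index prime to `p`; this subgroup can be found inside any given open subgroup `U₀` of
index prime to `p`. -/
theorem exists_hasFixed [IsTopologicalGroup G] [CompactSpace G] [TotallyDisconnectedSpace G]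
    (X : GMod p G) (hX : IsSmooth X) [Nontrivial X.M] (U₀ : Subgroup G)
    (hU₀ : IsOpen (U₀ : Set G)) (hp : ¬ p ∣ U₀.index) :
    ∃ U : Subgroup G, U ≤ U₀ ∧ IsOpen (U : Set G) ∧ ¬ p ∣ U.index ∧ HasFixed X U := by
  obtain ⟨W, hW, hWX⟩ := hX
  obtain ⟨N, hN⟩ := ProfiniteGrp.exist_openNormalSubgroup_sub_open_nhds_of_one
    (U := (W : Set G) ∩ U₀) (hW.inter hU₀) ⟨W.one_mem, U₀.one_mem⟩
  let N' : Subgroup G := N.toSubgroup
  have hNW : ∀ n ∈ N', n ∈ W := fun n hn => (hN hn).1
  have hNU : N' ≤ U₀ := fun n hn => (hN hn).2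
  have hNopen : IsOpen (N' : Set G) := N.isOpen'
  have hNfi : N'.FiniteIndex := Subgroup.finiteIndex_of_finite_quotient (H := N')
  have hker : N' ≤ X.ρ.ker := by
    intro n hn
    rw [MonoidHom.mem_ker]
    ext x
    exact hWX n (hNW n hn) x
  let π : G →* G ⧸ N' := QuotientGroup.mk' N'
  have hπ : Function.Surjective π := QuotientGroup.mk'_surjective N'
  have hπk : π.ker = N' := QuotientGroup.ker_mk' N'
  let ρ' : G ⧸ N' →* Module.End (ZMod p) X.M := QuotientGroup.lift N' X.ρ hker
  let A : Subgroup (G ⧸ N') := U₀.map π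
  have hA : A.index = U₀.index := Subgroup.index_map_eq U₀ hπ (hπk.trans_le hNU)
  obtain ⟨P⟩ : Nonempty (Sylow p A) := inferInstance
  let P' : Subgroup (G ⧸ N') := (P : Subgroup A).map A.subtype
  have hP' : P'.index = (P : Subgroup A).index * A.index := Subgroup.index_map_subtype _
  have hPp : ¬ p ∣ P'.index := by
    rw [hP', hA]
    exact (Fact.out : p.Prime).not_dvd_mul P.not_dvd_index hp
  refine ⟨P'.comap π, ?_, ?_, ?_, ?_⟩
  · intro x hx
    obtain ⟨a, -, ha⟩ := hx
    obtain ⟨y, hy, hyx⟩ := a.2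
    have h1 : π y = π x := hyx.trans ha
    have h2 : y⁻¹ * x ∈ N' := by
      rw [← hπk, MonoidHom.mem_ker, map_mul, map_inv, h1, inv_mul_cancel]
    have := U₀.mul_mem hy (hNU h2)
    simpa using this
  · refine Subgroup.isOpen_mono (H₁ := N') ?_ hNopen
    intro n hn
    rw [Subgroup.mem_comap, show π n = 1 from by rw [← MonoidHom.mem_ker, hπk]; exact hn]
    exact P'.one_mem
  · rw [Subgroup.index_comap_of_surjective _ hπ]
    exact hPp
  · letI : MulAction P X.M :=
      MulAction.compHom X.M (ρ'.comp (A.subtype.comp (P : Subgroup A).subtype))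
    have hcard : p ∣ Nat.card X.M := by
      have : Fintype X.M := Fintype.ofFinite _
      rw [Nat.card_eq_fintype_card, Module.card_eq_pow_finrank (K := ZMod p) (V := X.M),
        ZMod.card]
      exact dvd_pow_self p (Module.finrank_pos (R := ZMod p) (M := X.M)).ne'
    have h0 : (0 : X.M) ∈ MulAction.fixedPoints P X.M := fun q =>
      map_zero (ρ' ((q : A) : G ⧸ N'))
    obtain ⟨b, hb, hb0⟩ :=
      P.2.exists_fixed_point_of_prime_dvd_card_of_fixed_point X.M hcard h0
    refine ⟨b, hb0.symm, ?_⟩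
    intro u hu
    obtain ⟨a, ha, hau⟩ := hu
    have h1 : ρ' (a : G ⧸ N') b = b := hb ⟨a, ha⟩
    have h2 : ρ' (π u) b = b := by
      rw [← hau]
      exact h1
    exact h2

end Pool.Agent.X307.MU
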